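import Pool.Agent.K7.H3.ZC.Fin

/-!
# Surfaces with a constant cycle subvariety of large dimension

Let `X` be an irreducible projective surface over an algebraically closed field `k` of characteristic
zero, and `B(X)` the group of zero-cycles on `X` modulo rational equivalence.

**Theorem.** Suppose that, for one number `n`, there is an irreducible closed subset `F` of `X ^ n` of
dimension larger than `n` such that the cycles `z_1 + ... + z_n` are rationally equivalent for all
points `(z_1, ..., z_n)` of `F`: one fibre of one of the maps `γ : S^n(X) → B(X)` has dimension larger
than `n`. Then `B(X)` is finite-dimensional.

In other words: if `B(X)` is infinite-dimensional, then all fibres of all maps `γ : S^n(X) → B(X)` have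
dimension at most `n`. Mumford proved this for `p_g > 0`, with the help of a holomorphic form; the
theorem is about all surfaces, and the proof is elementary. For a surface with `p_g = 0` it says that
Bloch's conjecture is true as soon as there is one fibre of dimension larger than `n`.

There is one more datum: a form `h` such that the zeros of `h` on `X` are an irreducible curve. By
Bertini's theorem, there are such forms, of each degree, on each irreducible projective surface.

Proof. Let `ξ = (ξ_1, ..., ξ_n)` be the generic point of `F`, and, for a set `S` of indices, let `t(S)`
be the transcendence degree of the field generated by the `ξ_i` with `i` in `S`. This is a submodular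
function with `t({i}) ≤ 2`. Let `I` be a set with `t(I) = 2 |I|` and as many elements as possible, and
`J` its complement; then `t(J) ≤ |J| + |I| = n < t({1, ..., n})`
(`Pool/Agent/K7/H3/ZC/Poly.lean`). So `F` maps onto `X ^ I`, and for one `i` in `I` the point `ξ_i`
is not algebraic over the field generated by the `ξ_j` with `j` in `J`. Let `a` be any point of
`X ^ I`. There is a point of `F` with these coordinates; with its coordinates in `J` fixed, one can
specialise in such a way that the `i`-th coordinate comes to the curve `h = 0`
(`Pool/Agent/K7/H3/ZC/Move.lean`). So each sum of `|I|` points of `X` is equivalent to a sum of `|I|`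
points of which one is on the curve; by induction, each effective cycle is equivalent to the sum of at
most `|I|` points and of an effective cycle on the curve, and the theorem of Riemann on this curve
completes the proof.
-/

set_option autoImplicit false

open MvPolynomial FF Pool.Agent.K7.H3.ZC
open scoped LinearAlgebra.Projectivization

namespace Pool.Agent.K7.H3.Old.LargeOrbits

/-- **Large orbits.** Let `X` be an irreducible closed surface in the projective space of dimension `r`
over `k`, and `h` a form of positive degree whose zeros on `X` are an irreducible curve. Let `F` be an
irreducible closed subset of `X ^ n` of dimension `m > n` such that the cycles of all points of `F` are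
rationally equivalent on `X`. Then the group of the classes of zero-cycles on `X` is
finite-dimensional. -/
theorem result {k : Type} [Field k] [IsAlgClosed k] [CharZero k] {r : ℕ}
    {X : Set (ℙ k (Fin (r + 1) → k))}
    (surface : IsVariety k {z : Fin 1 → ℙ k (Fin (r + 1) → k) | z 0 ∈ X} 2)
    {h : MvPolynomial (Fin (r + 1)) k} {e : ℕ} (he : 0 < e) (hh : h.IsHomogeneous e)
    (curve : IsVariety k {z : Fin 1 → ℙ k (Fin (r + 1) → k) | z 0 ∈ X ∧ aeval (z 0).rep h = 0} 1)
    {n m : ℕ} {F : Set (Fin n → ℙ k (Fin (r + 1) → k))} (closed : IsVariety k F m)
    (large : n < m) (subset : ∀ z ∈ F, ∀ i, z i ∈ X)
    (constant : ∀ z ∈ F, ∀ z' ∈ F, cycle z - cycle z' ∈ ratEquiv X) :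
    IsFiniteDimensional X :=
  main surface he hh curve closed large subset constant

end Pool.Agent.K7.H3.Old.LargeOrbits
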